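import Mathlib

set_option autoImplicit false

/-!
Free groups are conjugacy separable: a short proof with permutations and a scalar voltage.
-/

namespace Pool.Agent.H57CS

open FreeGroup

section core

variable {X : Type*} {n : ℕ} [NeZero n] (Lab : ZMod n → X × Bool)

/-- the condition of cyclic reducedness of the labelled cycle -/
def Cyc : Prop := ∀ (i : ZMod n) (x : X),
  ¬ (Lab i = (x, true) ∧ Lab (i + 1) = (x, false)) ∧
  ¬ (Lab i = (x, false) ∧ Lab (i + 1) = (x, true))

theorem exists_perm (hC : Cyc Lab) (x : X) : ∃ π : Equiv.Perm (ZMod n),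
    (∀ i, Lab i = (x, true) → π i = i + 1) ∧ (∀ i, Lab (i - 1) = (x, false) → π i = i - 1) := by
  classical
  let f : ZMod n → ZMod n := fun i => if Lab i = (x, true) then i + 1 else i - 1
  let s : Set (ZMod n) := {i | Lab i = (x, true) ∨ Lab (i - 1) = (x, false)}
  have hinj : Set.InjOn f s := by
    intro i hi j hj hij
    by_cases h1 : Lab i = (x, true)
    · by_cases h2 : Lab j = (x, true)
      · simp only [f, if_pos h1, if_pos h2] at hij
        exact add_right_cancel hij
      · exfalso
        have h3 : Lab (j - 1) = (x, false) := by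
          rcases hj with h | h
          · exact absurd h h2
          · exact h
        simp only [f, if_pos h1, if_neg h2] at hij
        rw [← hij] at h3
        exact (hC i x).1 ⟨h1, h3⟩
    · have h1' : Lab (i - 1) = (x, false) := by
        rcases hi with h | h
        · exact absurd h h1
        · exact h
      by_cases h2 : Lab j = (x, true)
      · exfalso
        simp only [f, if_neg h1, if_pos h2] at hij
        rw [hij] at h1'
        exact (hC j x).1 ⟨h2, h1'⟩
      · simp only [f, if_neg h1, if_neg h2] at hij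
        exact sub_left_injective hij
  obtain ⟨g, hg⟩ := Set.MapsTo.exists_equiv_extend_of_card_eq (t := (Finset.univ : Finset (ZMod n)))
    (by simp) (s := s) (f := f) (fun i _ => by simp) hinj
  let e : Equiv.Perm (ZMod n) := g.trans
    { toFun := fun y => y.1
      invFun := fun y => ⟨y, Finset.mem_univ y⟩
      left_inv := fun y => rfl
      right_inv := fun y => rfl }
  refine ⟨e, ?_, ?_⟩
  · intro i hi
    have h1 : e i = f i := hg i (Or.inl hi)
    rw [h1]
    simp only [f, if_pos hi]
  · intro i hi
    have h1 : e i = f i := hg i (Or.inr hi)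
    rw [h1]
    have h2 : Lab i ≠ (x, true) := by
      intro h
      apply (hC (i - 1) x).2
      rw [sub_add_cancel]
      exact ⟨hi, h⟩
    simp only [f, if_neg h2]

open Classical in
/-- the voltage -/
noncomputable def delta (x : X) (i : ZMod n) : ℤ :=
  if Lab i = (x, true) then 1 else if Lab (i - 1) = (x, false) then -1 else 0

variable (π : X → Equiv.Perm (ZMod n))

/-- the next vertex -/
noncomputable def nxt (l : X × Bool) (i : ZMod n) : ZMod n :=
  if l.2 then π l.1 i else (π l.1).symm i

/-- the change of the voltage -/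
noncomputable def dd (l : X × Bool) (i : ZMod n) : ℤ :=
  if l.2 then delta Lab l.1 i else - delta Lab l.1 ((π l.1).symm i)

variable (hπ1 : ∀ x i, Lab i = (x, true) → π x i = i + 1)
  (hπ2 : ∀ x i, Lab (i - 1) = (x, false) → π x i = i - 1)

theorem delta_abs (x : X) (i : ZMod n) : -1 ≤ delta Lab x i ∧ delta Lab x i ≤ 1 := by
  unfold delta
  split_ifs <;> omega

theorem dd_abs (l : X × Bool) (i : ZMod n) : -1 ≤ dd Lab π l i ∧ dd Lab π l i ≤ 1 := by
  unfold dd
  split_ifs
  · exact delta_abs Lab _ _
  · have := delta_abs Lab l.1 ((π l.1).symm i)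
    omega

include hπ1 hπ2 in
theorem dd_one (l : X × Bool) (i : ZMod n) (h : dd Lab π l i = 1) :
    l = Lab i ∧ nxt π l i = i + 1 := by
  obtain ⟨x, b⟩ := l
  cases b with
  | true =>
    have h1 : delta Lab x i = 1 := h
    have h2 : Lab i = (x, true) := by
      by_contra h2
      unfold delta at h1
      rw [if_neg h2] at h1
      by_cases h3 : Lab (i - 1) = (x, false)
      · rw [if_pos h3] at h1; omega
      · rw [if_neg h3] at h1; omega
    exact ⟨h2.symm, hπ1 x i h2⟩
  | false =>
    have h1 : - delta Lab x ((π x).symm i) = 1 := h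
    have h3 : Lab ((π x).symm i - 1) = (x, false) := by
      by_contra h3
      unfold delta at h1
      by_cases h2 : Lab ((π x).symm i) = (x, true)
      · rw [if_pos h2] at h1; omega
      · rw [if_neg h2, if_neg h3] at h1; omega
    have h4 := hπ2 x _ h3
    rw [Equiv.apply_symm_apply] at h4
    have h5 : (π x).symm i = i + 1 := sub_eq_iff_eq_add.1 h4.symm
    refine ⟨?_, h5⟩
    rw [h5, add_sub_cancel_right] at h3
    exact h3.symm

include hπ1 hπ2 in
theorem dd_Lab (hC : Cyc Lab) (i : ZMod n) :
    dd Lab π (Lab i) i = 1 ∧ nxt π (Lab i) i = i + 1 := by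
  rcases hL : Lab i with ⟨x, b⟩
  cases b with
  | true =>
    refine ⟨?_, hπ1 x i hL⟩
    show delta Lab x i = 1
    unfold delta
    rw [if_pos hL]
  | false =>
    have h1 : Lab (i + 1 - 1) = (x, false) := by rw [add_sub_cancel_right]; exact hL
    have h2 := hπ2 x _ h1
    rw [add_sub_cancel_right] at h2
    have h3 : (π x).symm i = i + 1 := by
      rw [Equiv.symm_apply_eq]; exact h2.symm
    refine ⟨?_, h3⟩
    show - delta Lab x ((π x).symm i) = 1
    rw [h3]
    unfold delta
    rw [if_neg (fun h => (hC i x).2 ⟨hL, h⟩), if_pos h1]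
    norm_num

/-- the end of the path -/
noncomputable def runN : List (X × Bool) → ZMod n → ZMod n
  | [], i => i
  | l :: L, i => runN L (nxt π l i)

/-- the total voltage of the path -/
noncomputable def runD : List (X × Bool) → ZMod n → ℤ
  | [], _ => 0
  | l :: L, i => dd Lab π l i + runD L (nxt π l i)

theorem runD_abs (L : List (X × Bool)) (i : ZMod n) :
    -(L.length : ℤ) ≤ runD Lab π L i ∧ runD Lab π L i ≤ L.length := by
  induction L generalizing i with
  | nil => simp [runD]
  | cons l L ih =>
    have h1 := ih (nxt π l i)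
    have h2 := dd_abs Lab π l i
    simp only [runD, List.length_cons]
    push_cast
    omega

include hπ1 hπ2 in
theorem runD_eq (L : List (X × Bool)) (i : ZMod n) (h : runD Lab π L i = L.length) :
    ∀ (k : ℕ) (hk : k < L.length), L[k] = Lab (i + k) := by
  induction L generalizing i with
  | nil => intro k hk; simp at hk
  | cons l L ih =>
    have h1 := runD_abs Lab π L (nxt π l i)
    have h2 := dd_abs Lab π l i
    simp only [runD, List.length_cons] at h
    push_cast at h
    have h3 : dd Lab π l i = 1 := by omega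
    have h4 : runD Lab π L (nxt π l i) = L.length := by omega
    obtain ⟨h5, h6⟩ := dd_one Lab π hπ1 hπ2 l i h3
    intro k hk
    cases k with
    | zero => simpa using h5
    | succ k =>
      have h7 := ih (nxt π l i) h4 k (by simpa using hk)
      rw [h6] at h7
      rw [List.getElem_cons_succ, h7]
      congr 1
      push_cast
      ring

include hπ1 hπ2 in
theorem run_self (hC : Cyc Lab) (L : List (X × Bool)) (i : ZMod n)
    (h : ∀ (k : ℕ) (hk : k < L.length), L[k] = Lab (i + k)) :
    runD Lab π L i = L.length ∧ runN π L i = i + L.length := by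
  induction L generalizing i with
  | nil => simp [runD, runN]
  | cons l L ih =>
    have h0 : l = Lab i := by
      have := h 0 (by simp)
      simpa using this
    obtain ⟨h1, h2⟩ := dd_Lab Lab π hπ1 hπ2 hC i
    rw [← h0] at h1 h2
    have h3 := ih (i + 1) (by
      intro k hk
      have h4 := h (k + 1) (by simpa using hk)
      rw [List.getElem_cons_succ] at h4
      rw [h4]
      congr 1
      push_cast
      ring)
    simp only [runD, runN, List.length_cons, h1, h2, h3.1, h3.2]
    push_cast
    constructor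
    · ring
    · ring

/-- the permutation of a generator -/
noncomputable def sig (m : ℕ) (x : X) : Equiv.Perm (ZMod n × ZMod m) where
  toFun p := (π x p.1, p.2 + (delta Lab x p.1 : ZMod m))
  invFun p := ((π x).symm p.1, p.2 - (delta Lab x ((π x).symm p.1) : ZMod m))
  left_inv p := by simp
  right_inv p := by simp

/-- the right action of the free group -/
noncomputable def act (m : ℕ) : FreeGroup X →* (Equiv.Perm (ZMod n × ZMod m))ᵐᵒᵖ :=
  FreeGroup.lift (fun x => MulOpposite.op (sig Lab π m x))

theorem act_mk (m : ℕ) (L : List (X × Bool)) (p : ZMod n × ZMod m) :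
    MulOpposite.unop (act Lab π m (FreeGroup.mk L)) p =
      (runN π L p.1, p.2 + (runD Lab π L p.1 : ZMod m)) := by
  induction L generalizing p with
  | nil =>
    have : (FreeGroup.mk [] : FreeGroup X) = 1 := rfl
    rw [this, _root_.map_one]
    simp [runN, runD]
  | cons l L ih =>
    have h1 : (FreeGroup.mk (l :: L) : FreeGroup X) = FreeGroup.mk [l] * FreeGroup.mk L := by
      rw [FreeGroup.mul_mk]; rfl
    rw [h1, _root_.map_mul, MulOpposite.unop_mul, Equiv.Perm.mul_apply]
    have h2 : MulOpposite.unop (act Lab π m (FreeGroup.mk [l])) p =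
        (nxt π l p.1, p.2 + (dd Lab π l p.1 : ZMod m)) := by
      obtain ⟨x, b⟩ := l
      cases b with
      | true =>
        have h3 : (FreeGroup.mk [(x, true)] : FreeGroup X) = FreeGroup.of x := rfl
        rw [h3, act, FreeGroup.lift_apply_of]
        rfl
      | false =>
        have h3 : (FreeGroup.mk [(x, false)] : FreeGroup X) = (FreeGroup.of x)⁻¹ := rfl
        rw [h3, act, _root_.map_inv, FreeGroup.lift_apply_of]
        show ((π x).symm p.1, p.2 - (delta Lab x ((π x).symm p.1) : ZMod m)) =
          ((π x).symm p.1, p.2 + ((- delta Lab x ((π x).symm p.1) : ℤ) : ZMod m))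
        push_cast
        rw [sub_eq_add_neg]
    rw [h2, ih]
    simp only [runN, runD]
    push_cast
    rw [add_assoc]

/-- equivariance -/
theorem act_equi (m : ℕ) (w : FreeGroup X) (p : ZMod n × ZMod m) (t : ZMod m) :
    MulOpposite.unop (act Lab π m w) (p.1, p.2 + t) =
      ((MulOpposite.unop (act Lab π m w) p).1, (MulOpposite.unop (act Lab π m w) p).2 + t) := by
  classical
  have h1 : w = FreeGroup.mk w.toWord := FreeGroup.mk_toWord.symm
  rw [h1, act_mk, act_mk]
  simp only [Prod.mk.injEq, true_and]
  ring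

end core

/-- rotations are conjugate -/
theorem isConj_rotate {X : Type*} (L : List (X × Bool)) (k : ℕ) :
    IsConj (FreeGroup.mk L) (FreeGroup.mk (L.rotate k)) := by
  rw [List.rotate_eq_drop_append_take_mod]
  set j := k % L.length
  rw [isConj_iff]
  refine ⟨(FreeGroup.mk (L.take j))⁻¹, ?_⟩
  have h1 : (FreeGroup.mk L : FreeGroup X) = FreeGroup.mk (L.take j) * FreeGroup.mk (L.drop j) := by
    rw [FreeGroup.mul_mk, List.take_append_drop]
  rw [h1, inv_inv, inv_mul_cancel_left, FreeGroup.mul_mk]

/-- the main step -/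
theorem main_step {X : Type*} (U V : List (X × Bool)) (hU : IsCyclicallyReduced U)
    (hVU : V.length ≤ U.length) (h : ¬ IsConj (FreeGroup.mk U) (FreeGroup.mk V)) :
    ∃ (Q : Type) (_ : Group Q) (_ : Finite Q) (ψ : FreeGroup X →* Q),
      ¬ IsConj (ψ (FreeGroup.mk U)) (ψ (FreeGroup.mk V)) := by
  classical
  by_cases hU0 : U.length = 0
  · exfalso
    apply h
    have h1 : U = [] := List.length_eq_zero_iff.1 hU0
    have h2 : V = [] := List.length_eq_zero_iff.1 (by omega)
    rw [h1, h2]
  set n := U.length with hn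
  haveI : NeZero n := ⟨hU0⟩
  have hval : ∀ i : ZMod n, i.val < U.length := fun i => ZMod.val_lt i
  let Lab : ZMod n → X × Bool := fun i => U[i.val]'(hval i)
  have hLab : ∀ (k : ℕ) (hk : k < U.length), Lab (k : ZMod n) = U[k] := by
    intro k hk
    have h1 : ((k : ℕ) : ZMod n).val = k := ZMod.val_natCast_of_lt hk
    simp only [Lab, h1]
  have hchain : ∀ (k : ℕ) (hk : k + 1 < U.length), (U[k]).1 = (U[k + 1]).1 →
      (U[k]).2 = (U[k + 1]).2 := by
    intro k hk
    exact List.isChain_iff_getElem.1 hU.1 k hk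
  have hlast : (U[n - 1]'(by omega)).1 = (U[0]'(by omega)).1 →
      (U[n - 1]'(by omega)).2 = (U[0]'(by omega)).2 := by
    apply hU.2
    · rw [List.getLast?_eq_getElem?]
      simp only [Option.mem_def]
      rw [List.getElem?_eq_getElem]
    · rw [List.head?_eq_getElem?]
      simp only [Option.mem_def]
      rw [List.getElem?_eq_getElem]
  have hadj : ∀ i : ZMod n, (Lab i).1 = (Lab (i + 1)).1 → (Lab i).2 = (Lab (i + 1)).2 := by
    intro i
    have hi : ((i.val : ℕ) : ZMod n) = i := ZMod.natCast_zmod_val i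
    have hlt := hval i
    rw [← hi, hLab _ hlt]
    by_cases hlt2 : i.val + 1 < U.length
    · have h1 : ((i.val : ℕ) : ZMod n) + 1 = ((i.val + 1 : ℕ) : ZMod n) := by push_cast; ring
      rw [h1, hLab _ hlt2]
      exact hchain _ hlt2
    · have h2 : i.val + 1 = n := by omega
      have h1 : ((i.val : ℕ) : ZMod n) + 1 = ((0 : ℕ) : ZMod n) := by
        have h3 : ((i.val : ℕ) : ZMod n) + 1 = ((i.val + 1 : ℕ) : ZMod n) := by push_cast; ring
        rw [h3, h2]
        simp
      rw [h1, hLab 0 (by omega)]
      have h4 : i.val = n - 1 := by omega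
      simp only [h4]
      exact hlast
  have hC : Cyc Lab := by
    intro i x
    constructor
    · rintro ⟨h1, h2⟩
      have h3 := hadj i
      rw [h1, h2] at h3
      simp at h3
    · rintro ⟨h1, h2⟩
      have h3 := hadj i
      rw [h1, h2] at h3
      simp at h3
  choose π hπ1 hπ2 using fun x => exists_perm Lab hC x
  set m := 2 * n + 1 with hm
  let ψ0 := act Lab π m
  have hU' : ∀ (k : ℕ) (hk : k < U.length), U[k] = Lab (0 + k) := by
    intro k hk
    rw [zero_add, hLab k hk]
  obtain ⟨hr1, hr2⟩ := run_self Lab π hπ1 hπ2 hC U 0 hU'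
  haveI : NeZero m := ⟨by omega⟩
  haveI : Finite (Equiv.Perm (ZMod n × ZMod m))ᵐᵒᵖ :=
    Finite.of_equiv _ MulOpposite.opEquiv
  refine ⟨ψ0.range, inferInstance, inferInstance, ψ0.rangeRestrict, ?_⟩
  intro hconj
  apply h
  obtain ⟨c, hc⟩ := isConj_iff.1 hconj
  obtain ⟨c, w, rfl⟩ := c
  have hc' : ψ0 w * ψ0 (FreeGroup.mk U) * (ψ0 w)⁻¹ = ψ0 (FreeGroup.mk V) :=
    congrArg Subtype.val hc
  -- `p w = (0, 0)`
  have hc2 : ψ0 w * ψ0 (FreeGroup.mk U) = ψ0 (FreeGroup.mk V) * ψ0 w := by
    rw [← hc', inv_mul_cancel_right]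
  let p : ZMod n × ZMod m := (MulOpposite.unop (ψ0 w)).symm (0, 0)
  have hp : MulOpposite.unop (ψ0 w) p = (0, 0) := Equiv.apply_symm_apply _ _
  have h1 : MulOpposite.unop (ψ0 (FreeGroup.mk U)) (MulOpposite.unop (ψ0 w) p) =
      MulOpposite.unop (ψ0 w) (MulOpposite.unop (ψ0 (FreeGroup.mk V)) p) := by
    have h2 := congrArg (fun g : (Equiv.Perm (ZMod n × ZMod m))ᵐᵒᵖ => MulOpposite.unop g p) hc2
    exact h2
  rw [hp] at h1
  have h2 : MulOpposite.unop (ψ0 (FreeGroup.mk U)) (0, 0) = (0, (n : ZMod m)) := by
    rw [act_mk]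
    simp only
    rw [hr1, hr2, ← hn]
    simp
  rw [h2] at h1
  have h3 : MulOpposite.unop (ψ0 w) (p.1, p.2 + (n : ZMod m)) = (0, (n : ZMod m)) := by
    have h4 := act_equi Lab π m w p (n : ZMod m)
    have h5 : MulOpposite.unop (act Lab π m w) p = (0, 0) := hp
    rw [h5] at h4
    simpa using h4
  rw [← h3] at h1
  have h4 : (p.1, p.2 + (n : ZMod m)) = MulOpposite.unop (ψ0 (FreeGroup.mk V)) p :=
    (MulOpposite.unop (ψ0 w)).injective h1
  rw [act_mk] at h4
  have h5 : p.2 + (n : ZMod m) = p.2 + (runD Lab π V p.1 : ZMod m) := (Prod.ext_iff.1 h4).2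
  have h6 : ((n : ℤ) : ZMod m) = (runD Lab π V p.1 : ZMod m) := by
    have := add_left_cancel h5
    push_cast
    exact this
  have h7 : (m : ℤ) ∣ runD Lab π V p.1 - n := by
    have := (ZMod.intCast_eq_intCast_iff_dvd_sub _ _ _).1 h6
    exact this
  have h8 := runD_abs Lab π V p.1
  have h9 : runD Lab π V p.1 = n := by
    obtain ⟨k, hk⟩ := h7
    have hmz : (m : ℤ) = 2 * n + 1 := by rw [hm]; push_cast; ring
    rw [hmz] at hk
    have hVn : (V.length : ℤ) ≤ n := by exact_mod_cast hVU
    have hnpos : (0 : ℤ) < n := by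
      have : 0 < n := Nat.pos_of_ne_zero hU0
      exact_mod_cast this
    have hk0 : k = 0 := by
      rcases lt_trichotomy k 0 with h | h | h
      · nlinarith
      · exact h
      · nlinarith
    rw [hk0] at hk
    linarith
  have h10 : V.length = n := by
    have h11 := h8.2
    rw [h9] at h11
    have : n ≤ V.length := by exact_mod_cast h11
    omega
  have h11 := runD_eq Lab π hπ1 hπ2 V p.1 (by rw [h9, h10])
  -- `V` is a rotation of `U`
  have h12 : V = U.rotate p.1.val := by
    apply List.ext_getElem
    · rw [List.length_rotate, h10]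
    · intro k hk1 hk2
      rw [List.getElem_rotate, h11 k hk1]
      have h13 : p.1 + (k : ZMod n) = (((k + p.1.val) % U.length : ℕ) : ZMod n) := by
        rw [← hn, ZMod.natCast_mod]
        push_cast
        rw [ZMod.natCast_zmod_val, add_comm]
      rw [h13]
      exact hLab _ (Nat.mod_lt _ (by omega))
  rw [h12]
  exact isConj_rotate U _

/-- every element is conjugate to one with a cyclically reduced word -/
theorem exists_cyc {X : Type*} (u : FreeGroup X) :
    ∃ U : List (X × Bool), IsCyclicallyReduced U ∧ IsConj (FreeGroup.mk U) u := by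
  classical
  refine ⟨reduceCyclically u.toWord, reduceCyclically.isCyclicallyReduced isReduced_toWord, ?_⟩
  rw [isConj_iff]
  refine ⟨FreeGroup.mk (reduceCyclically.conjugator u.toWord), ?_⟩
  rw [FreeGroup.inv_mk, FreeGroup.mul_mk, FreeGroup.mul_mk,
    reduceCyclically.conj_conjugator_reduceCyclically, FreeGroup.mk_toWord]

/-- **free groups are conjugacy separable** -/
theorem free_conj_sep {X : Type*} (u v : FreeGroup X) (h : ¬ IsConj u v) :
    ∃ (Q : Type) (_ : Group Q) (_ : Finite Q) (ψ : FreeGroup X →* Q), ¬ IsConj (ψ u) (ψ v) := by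
  obtain ⟨U, hU, hUu⟩ := exists_cyc u
  obtain ⟨V, hV, hVv⟩ := exists_cyc v
  have hUV : ¬ IsConj (FreeGroup.mk U) (FreeGroup.mk V) := fun h1 =>
    h ((hUu.symm.trans h1).trans hVv)
  rcases le_total V.length U.length with hle | hle
  · obtain ⟨Q, i1, i2, ψ, hψ⟩ := main_step U V hU hle hUV
    refine ⟨Q, i1, i2, ψ, fun h1 => hψ ?_⟩
    exact ((ψ.map_isConj hUu).trans h1).trans (ψ.map_isConj hVv).symm
  · obtain ⟨Q, i1, i2, ψ, hψ⟩ := main_step V U hV hle (fun h1 => hUV h1.symm)
    refine ⟨Q, i1, i2, ψ, fun h1 => hψ ?_⟩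
    exact ((ψ.map_isConj hVv).trans h1.symm).trans (ψ.map_isConj hUu).symm

end Pool.Agent.H57CS
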